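import Mathlib
import Pool.Agent.H.MP_c8cc4c_co.Hub.Iface
import Pool.Agent.H.MP_c8cc4c_co.B.Near
import Pool.Agent.H.MP_c8cc4c_co.B.Conn

/-!
# MP_c8cc4c_co, full question: few pairs of disjoint connected sets are joined by short links
-/

open scoped Classical
open Finset

noncomputable section

namespace Pool.Agent.H.MP_c8cc4c_co.Hub

/-- a link as a connected set around its first end -/
theorem link_set {V : Type} {G : SimpleGraph V} {X Y L : Set V} (hX : ConnOn G X)
    (hd : Disjoint X Y) (h : Link G X Y L) :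
    ∃ C : Set V, ConnOn G C ∧ X ⊆ C ∧ (∀ v ∈ C, v ∈ X ∨ (v ∈ L ∧ v ∉ Y)) ∧
      ∃ u ∈ C, ∃ v ∈ Y, G.Adj u v := by
  obtain ⟨x, hx, y, hy, n, hn⟩ := h
  have hxY : x ∈ Yᶜ := fun h => Set.disjoint_left.1 hd hx h
  have hyY : y ∉ Yᶜ := fun h => h hy
  obtain ⟨u, v, k, l, -, h1, h2, h3, -⟩ := near_exit hn hxY hyY
  have hxA : x ∈ ({x, y} ∪ L) ∩ Yᶜ := near_left h1
  have hc := comp_isComp (G := G) hxA
  refine ⟨X ∪ comp G (({x, y} ∪ L) ∩ Yᶜ) x, ?_, Set.subset_union_left, ?_, u, ?_, v,
    by simpa using h3, h2⟩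
  · exact connOn_union hX hc.1 ⟨x, hx, mem_comp_self hxA⟩
  · rintro w (hw | hw)
    · exact Or.inl hw
    · obtain ⟨hw1, hw2⟩ := hc.2.1 hw
      rcases hw1 with (rfl | rfl) | hw1
      · exact Or.inl hx
      · exact absurd hy hw2
      · exact Or.inr ⟨hw1, hw2⟩
  · right
    exact ⟨_, h1⟩

/-- counting the pairs of a degenerate relation -/
theorem deg_pairs {J : Type} (r : J → J → Prop) (hr : ∀ i j, r i j → r j i) (k : ℕ) :
    ∀ (n : ℕ) (Z : Finset J), Z.card = n →
      (∀ W ⊆ Z, W.Nonempty → ∃ i ∈ W, (W.filter fun j => j ≠ i ∧ r i j).card ≤ k) →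
      ((Z ×ˢ Z).filter fun q => q.1 ≠ q.2 ∧ r q.1 q.2).card ≤ 2 * k * n := by
  intro n
  induction n with
  | zero =>
    intro Z hZ _
    rw [Finset.card_eq_zero] at hZ
    subst hZ
    simp
  | succ n ih =>
    intro Z hZ h
    have hne : Z.Nonempty := by
      rw [← Finset.card_pos]
      omega
    obtain ⟨i, hi, hk⟩ := h Z subset_rfl hne
    have h1 := ih (Z.erase i) (by rw [Finset.card_erase_of_mem hi]; omega)
      (fun W hW => h W (hW.trans (Finset.erase_subset _ _)))
    have hsub : ((Z ×ˢ Z).filter fun q => q.1 ≠ q.2 ∧ r q.1 q.2) ⊆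
        ((Z.erase i ×ˢ Z.erase i).filter fun q => q.1 ≠ q.2 ∧ r q.1 q.2) ∪
        (((Z.filter fun j => j ≠ i ∧ r i j).image fun j => (i, j)) ∪
         ((Z.filter fun j => j ≠ i ∧ r i j).image fun j => (j, i))) := by
      rintro ⟨a, b⟩ hab
      simp only [Finset.mem_filter, Finset.mem_product] at hab
      obtain ⟨⟨ha, hb⟩, hne, hrab⟩ := hab
      simp only [Finset.mem_union, Finset.mem_filter, Finset.mem_product, Finset.mem_erase,
        Finset.mem_image, Prod.mk.injEq]
      by_cases hai : a = i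
      · subst hai
        right; left
        exact ⟨b, ⟨hb, fun h => hne h.symm, hrab⟩, rfl, rfl⟩
      · by_cases hbi : b = i
        · subst hbi
          right; right
          exact ⟨a, ⟨ha, hne, hr _ _ hrab⟩, rfl, rfl⟩
        · left
          exact ⟨⟨⟨hai, ha⟩, hbi, hb⟩, hne, hrab⟩
    have h2 := Finset.card_le_card hsub
    have h3 := Finset.card_union_le
      ((Z.erase i ×ˢ Z.erase i).filter fun q => q.1 ≠ q.2 ∧ r q.1 q.2)
      (((Z.filter fun j => j ≠ i ∧ r i j).image fun j => (i, j)) ∪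
         ((Z.filter fun j => j ≠ i ∧ r i j).image fun j => (j, i)))
    have h4 := Finset.card_union_le ((Z.filter fun j => j ≠ i ∧ r i j).image fun j => (i, j))
         ((Z.filter fun j => j ≠ i ∧ r i j).image fun j => (j, i))
    have h5 : ((Z.filter fun j => j ≠ i ∧ r i j).image fun j => (i, j)).card ≤ k :=
      Finset.card_image_le.trans hk
    have h6 : ((Z.filter fun j => j ≠ i ∧ r i j).image fun j => (j, i)).card ≤ k :=
      Finset.card_image_le.trans hk
    have h7 : 2 * k * (n + 1) = 2 * k * n + k + k := by ring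
    omega

/-- at most ten ordered adjacent pairs per set, for disjoint connected sets -/
theorem m5_pairs {V : Type} {G : SimpleGraph V} (h5 : M5 G) {J : Type} (X : J → Set V)
    (Z : Finset J) (hX : ∀ i ∈ Z, ConnOn G (X i))
    (hd : ∀ i ∈ Z, ∀ j ∈ Z, i ≠ j → Disjoint (X i) (X j)) :
    ((Z ×ˢ Z).filter fun q => q.1 ≠ q.2 ∧ ∃ x ∈ X q.1, ∃ y ∈ X q.2, G.Adj x y).card ≤
      10 * Z.card := by
  have h := deg_pairs (fun i j => ∃ x ∈ X i, ∃ y ∈ X j, G.Adj x y)
    (fun i j ⟨x, hx, y, hy, h⟩ => ⟨y, hy, x, hx, h.symm⟩) 5 Z.card Z rfl ?_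
  · simpa using h
  intro W hW hne
  obtain ⟨w, hw⟩ := hne
  obtain ⟨i, hi⟩ := h5 (↥W) (fun j => X j) ⟨⟨w, hw⟩⟩ (fun j => hX _ (hW j.2))
    (fun i j hij => hd _ (hW i.2) _ (hW j.2) (fun h => hij (Subtype.ext h)))
  refine ⟨i, i.2, ?_⟩
  refine le_trans ?_ hi
  refine Finset.card_le_card_of_injOn (fun j => if h : j ∈ W then ⟨j, h⟩ else i) ?_ ?_
  · intro j hj
    simp only [Finset.coe_filter, Set.mem_ofPred_eq] at hj
    simp only [Finset.coe_filter, Set.mem_ofPred_eq, Finset.mem_univ, true_and, dif_pos hj.1]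
    refine ⟨?_, hj.2.2⟩
    intro h
    exact hj.2.1 (congrArg Subtype.val h)
  · intro j hj j' hj' hjj
    simp only [Finset.coe_filter, Set.mem_ofPred_eq] at hj hj'
    simp only [dif_pos hj.1, dif_pos hj'.1, Subtype.mk.injEq] at hjj
    exact hjj

/-- the links which survive for the index set `Z` -/
def surv {V J Y : Type} (X : J → Set V) (a b : Y → J) (L : Y → Finset V) (Z : Finset J) (y : Y) :
    Prop :=
  a y ∈ Z ∧ b y ∈ Z ∧ ∀ t ∈ Z, t ≠ a y → t ≠ b y → ∀ v ∈ L y, v ∉ X t

/-- at most ten surviving links per set -/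
theorem surv_card {V : Type} {G : SimpleGraph V} (h5 : M5 G) {J : Type}
    (X : J → Set V) (hX : ∀ i, ConnOn G (X i)) (hd : ∀ i j, i ≠ j → Disjoint (X i) (X j))
    {Y : Type} (a b : Y → J) (L : Y → Finset V) (hab : ∀ y, a y ≠ b y)
    (hlink : ∀ y, Link G (X (a y)) (X (b y)) (L y)) (I : Finset Y)
    (hI : ∀ y ∈ I, ∀ y' ∈ I, y ≠ y' → Disjoint (L y) (L y'))
    (hinj : ∀ y ∈ I, ∀ y' ∈ I, a y = a y' → b y = b y' → y = y') (Z : Finset J) :
    (I.filter fun y => surv X a b L Z y).card ≤ 10 * Z.card := by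
  have hC : ∀ y, ∃ C : Set V, ConnOn G C ∧ X (a y) ⊆ C ∧
      (∀ v ∈ C, v ∈ X (a y) ∨ (v ∈ (L y : Set V) ∧ v ∉ X (b y))) ∧
      ∃ u ∈ C, ∃ v ∈ X (b y), G.Adj u v :=
    fun y => link_set (hX _) (hd _ _ (hab y)) (hlink y)
  choose C hC1 hC2 hC3 hC4 using hC
  set X' : J → Set V := fun s =>
    X s ∪ ⋃ y : {y : Y // y ∈ I ∧ surv X a b L Z y ∧ a y = s}, C y with hX'
  have hmem : ∀ s v, v ∈ X' s → v ∈ X s ∨
      ∃ y ∈ I, surv X a b L Z y ∧ a y = s ∧ v ∈ L y ∧ v ∉ X (b y) := by
    rintro s v (hv | hv)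
    · exact Or.inl hv
    · rw [Set.mem_iUnion] at hv
      obtain ⟨⟨y, hy1, hy2, hy3⟩, hv⟩ := hv
      rcases hC3 y v hv with hv | ⟨hv1, hv2⟩
      · left
        rw [hy3] at hv
        exact hv
      · exact Or.inr ⟨y, hy1, hy2, hy3, by simpa using hv1, hv2⟩
  have hconn : ∀ s ∈ Z, ConnOn G (X' s) := by
    intro s _
    refine connOn_iUnion (hX s) _ (fun y => hC1 _) ?_
    rintro ⟨y, hy1, hy2, hy3⟩
    obtain ⟨x, hx⟩ := (hX s).1
    exact ⟨x, hC2 y (by rw [hy3]; exact hx), hx⟩
  have hdisj : ∀ s ∈ Z, ∀ t ∈ Z, s ≠ t → Disjoint (X' s) (X' t) := by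
    intro s hs t ht hst
    rw [Set.disjoint_left]
    intro v hv hv'
    rcases hmem s v hv with h1 | ⟨y, hy1, hy2, hy3, hy4, hy5⟩
    · rcases hmem t v hv' with h2 | ⟨y', hy1', hy2', hy3', hy4', hy5'⟩
      · exact Set.disjoint_left.1 (hd s t hst) h1 h2
      · by_cases h : s = b y'
        · rw [← h] at hy5'
          exact hy5' h1
        · exact hy2'.2.2 s hs (by rw [hy3']; exact hst) h v hy4' h1
    · rcases hmem t v hv' with h2 | ⟨y', hy1', hy2', hy3', hy4', hy5'⟩
      · by_cases h : t = b y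
        · rw [← h] at hy5
          exact hy5 h2
        · exact hy2.2.2 t ht (by rw [hy3]; exact hst.symm) h v hy4 h2
      · have hne : y ≠ y' := by
          rintro rfl
          exact hst (hy3.symm.trans hy3')
        exact Finset.disjoint_left.1 (hI y hy1 y' hy1' hne) hy4 hy4'
  refine le_trans ?_ (m5_pairs h5 X' Z hconn hdisj)
  refine Finset.card_le_card_of_injOn (fun y => (a y, b y)) ?_ ?_
  · intro y hy
    simp only [Finset.coe_filter, Set.mem_ofPred_eq] at hy
    obtain ⟨hyI, hyS⟩ := hy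
    simp only [Finset.coe_filter, Set.mem_ofPred_eq, Finset.mem_product]
    refine ⟨⟨hyS.1, hyS.2.1⟩, hab y, ?_⟩
    obtain ⟨u, hu, v, hv, huv⟩ := hC4 y
    refine ⟨u, ?_, v, Or.inl hv, huv⟩
    right
    rw [Set.mem_iUnion]
    exact ⟨⟨y, hyI, hyS, rfl⟩, hu⟩
  · intro y hy y' hy' h
    simp only [Finset.coe_filter, Set.mem_ofPred_eq] at hy hy'
    simp only [Prod.mk.injEq] at h
    exact hinj y hy.1 y' hy'.1 h.1 h.2

/-- every link survives often -/
theorem surv_often {V J Y : Type} (X : J → Set V) (hd : ∀ i j, i ≠ j → Disjoint (X i) (X j))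
    (a b : Y → J) (L : Y → Finset V) (l : ℕ) (hl : ∀ y, (L y).card ≤ l) (S : Finset J) (y : Y)
    (ha : a y ∈ S) (hb : b y ∈ S) :
    2 ^ S.card ≤ 2 ^ (l + 2) * (S.powerset.filter fun Z => surv X a b L Z y).card := by
  set T := S.filter fun t => t ≠ a y ∧ t ≠ b y ∧ ∃ v ∈ L y, v ∈ X t with hT
  have hTc : T.card ≤ l := by
    refine le_trans ?_ (hl y)
    rcases Finset.eq_empty_or_nonempty T with hT0 | ⟨t0, ht0⟩
    · rw [hT0]
      simp
    obtain ⟨v0, -⟩ := (Finset.mem_filter.1 ht0).2.2.2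
    have hch : ∀ t, ∃ v, t ∈ T → v ∈ L y ∧ v ∈ X t := by
      intro t
      by_cases ht : t ∈ T
      · obtain ⟨v, hv⟩ := (Finset.mem_filter.1 ht).2.2.2
        exact ⟨v, fun _ => hv⟩
      · exact ⟨v0, fun h => absurd h ht⟩
    choose g hg using hch
    refine Finset.card_le_card_of_injOn g (fun t ht => (hg t ht).1) ?_
    intro t ht t' ht' h
    by_contra hne
    refine Set.disjoint_left.1 (hd t t' hne) (hg t ht).2 ?_
    rw [h]
    exact (hg t' ht').2
  set D := S \ ({a y, b y} ∪ T) with hD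
  have hDc : S.card ≤ D.card + (l + 2) := by
    have h1 : S ⊆ D ∪ ({a y, b y} ∪ T) := by
      intro t ht
      by_cases h : t ∈ ({a y, b y} ∪ T : Finset J)
      · exact Finset.mem_union_right _ h
      · exact Finset.mem_union_left _ (Finset.mem_sdiff.2 ⟨ht, h⟩)
    have h2 := Finset.card_le_card h1
    have h3 := Finset.card_union_le D ({a y, b y} ∪ T)
    have h4 := Finset.card_union_le ({a y, b y} : Finset J) T
    have h5 : ({a y, b y} : Finset J).card ≤ 2 := Finset.card_le_two
    omega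
  have h1 : 2 ^ D.card ≤ (S.powerset.filter fun Z => surv X a b L Z y).card := by
    rw [← Finset.card_powerset]
    refine Finset.card_le_card_of_injOn (fun Z => Z ∪ {a y, b y}) ?_ ?_
    · intro Z hZ
      simp only [Finset.coe_powerset, Set.mem_preimage, Set.mem_powerset_iff,
        Finset.coe_subset] at hZ
      simp only [Finset.coe_filter, Set.mem_ofPred_eq, Finset.mem_powerset]
      refine ⟨?_, ?_, ?_, ?_⟩
      · intro t ht
        simp only [Finset.mem_union, Finset.mem_insert, Finset.mem_singleton] at ht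
        rcases ht with ht | rfl | rfl
        · exact (Finset.mem_sdiff.1 (hZ ht)).1
        · exact ha
        · exact hb
      · simp
      · simp
      · intro t ht hta htb v hv hvt
        simp only [Finset.mem_union, Finset.mem_insert, Finset.mem_singleton] at ht
        rcases ht with ht | rfl | rfl
        · obtain ⟨h1, h2⟩ := Finset.mem_sdiff.1 (hZ ht)
          apply h2
          apply Finset.mem_union_right
          rw [hT, Finset.mem_filter]
          exact ⟨h1, hta, htb, v, hv, hvt⟩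
        · exact hta rfl
        · exact htb rfl
    · intro Z hZ Z' hZ' h
      simp only [Finset.coe_powerset, Set.mem_preimage, Set.mem_powerset_iff,
        Finset.coe_subset] at hZ hZ'
      have key : ∀ W : Finset J, W ⊆ D → (W ∪ {a y, b y}) ∩ D = W := by
        intro W hW
        ext t
        simp only [Finset.mem_inter, Finset.mem_union, Finset.mem_insert, Finset.mem_singleton]
        constructor
        · rintro ⟨h1 | h1, h2⟩
          · exact h1
          · exfalso
            apply (Finset.mem_sdiff.1 h2).2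
            apply Finset.mem_union_left
            simpa using h1
        · intro h1
          exact ⟨Or.inl h1, hW h1⟩
      rw [← key Z hZ, ← key Z' hZ']
      exact congrArg (· ∩ D) h
  calc 2 ^ S.card ≤ 2 ^ (D.card + (l + 2)) := Nat.pow_le_pow_right (by norm_num) hDc
    _ = 2 ^ (l + 2) * 2 ^ D.card := by rw [pow_add, mul_comm]
    _ ≤ _ := Nat.mul_le_mul_left _ h1

/-- disjoint links -/
theorem fact2_ind {V : Type} {G : SimpleGraph V} (h5 : M5 G) {J : Type}
    (X : J → Set V) (hX : ∀ i, ConnOn G (X i)) (hd : ∀ i j, i ≠ j → Disjoint (X i) (X j))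
    {Y : Type} (a b : Y → J) (L : Y → Finset V) (l : ℕ) (hab : ∀ y, a y ≠ b y)
    (hl : ∀ y, (L y).card ≤ l) (hlink : ∀ y, Link G (X (a y)) (X (b y)) (L y))
    (S : Finset J) (I : Finset Y) (hIa : ∀ y ∈ I, a y ∈ S) (hIb : ∀ y ∈ I, b y ∈ S)
    (hI : ∀ y ∈ I, ∀ y' ∈ I, y ≠ y' → Disjoint (L y) (L y'))
    (hinj : ∀ y ∈ I, ∀ y' ∈ I, a y = a y' → b y = b y' → y = y') :
    I.card ≤ 10 * 2 ^ (l + 2) * S.card := by
  have h1 : I.card * 2 ^ S.card ≤
      ∑ y ∈ I, 2 ^ (l + 2) * (S.powerset.filter fun Z => surv X a b L Z y).card := by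
    rw [← smul_eq_mul, ← Finset.sum_const]
    exact Finset.sum_le_sum fun y hy => surv_often X hd a b L l hl S y (hIa y hy) (hIb y hy)
  have h2 : ∑ y ∈ I, (S.powerset.filter fun Z => surv X a b L Z y).card =
      ∑ Z ∈ S.powerset, (I.filter fun y => surv X a b L Z y).card := by
    simp only [Finset.card_filter]
    exact Finset.sum_comm
  have h3 : ∑ Z ∈ S.powerset, (I.filter fun y => surv X a b L Z y).card ≤
      ∑ Z ∈ S.powerset, 10 * S.card := by
    refine Finset.sum_le_sum fun Z hZ => ?_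
    refine (surv_card h5 X hX hd a b L hab hlink I hI hinj Z).trans ?_
    exact Nat.mul_le_mul_left _ (Finset.card_le_card (Finset.mem_powerset.1 hZ))
  rw [← Finset.mul_sum, h2] at h1
  rw [Finset.sum_const, Finset.card_powerset, smul_eq_mul] at h3
  have h4 : I.card * 2 ^ S.card ≤ (10 * 2 ^ (l + 2) * S.card) * 2 ^ S.card := by
    calc I.card * 2 ^ S.card ≤ _ := h1
      _ ≤ 2 ^ (l + 2) * (2 ^ S.card * (10 * S.card)) := Nat.mul_le_mul_left _ h3
      _ = _ := by ring
  exact Nat.le_of_mul_le_mul_right h4 (by positivity)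

/-- a large disjoint subfamily -/
theorem exists_ind {V : Type} {Y : Type} (L : Y → Finset V) (k : ℕ) :
    ∀ (n : ℕ) (P : Finset Y), P.card = n →
      (∀ y ∈ P, (P.filter fun y' => ¬ Disjoint (L y) (L y')).card ≤ k) →
      ∃ I ⊆ P, (∀ y ∈ I, ∀ y' ∈ I, y ≠ y' → Disjoint (L y) (L y')) ∧ n ≤ (k + 1) * I.card := by
  intro n
  induction n using Nat.strong_induction_on with
  | _ n ih =>
    intro P hP hk
    rcases Finset.eq_empty_or_nonempty P with hP0 | ⟨y, hy⟩
    · refine ⟨∅, by simp, by simp, ?_⟩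
      rw [hP0, Finset.card_empty] at hP
      simp [← hP]
    set P' := (P.erase y).filter fun y' => Disjoint (L y) (L y') with hP'
    have hsub : P' ⊆ P := (Finset.filter_subset _ _).trans (Finset.erase_subset _ _)
    have hlt : P'.card < n := by
      rw [← hP]
      refine Finset.card_lt_card ⟨hsub, fun h => ?_⟩
      have := h hy
      rw [hP', Finset.mem_filter, Finset.mem_erase] at this
      exact this.1.1 rfl
    obtain ⟨I, hI1, hI2, hI3⟩ := ih P'.card hlt P' rfl (fun y' hy' =>
      (Finset.card_le_card (Finset.filter_subset_filter _ hsub)).trans (hk y' (hsub hy')))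
    have hyI : y ∉ I := by
      intro h
      have := hI1 h
      rw [hP', Finset.mem_filter, Finset.mem_erase] at this
      exact this.1.1 rfl
    refine ⟨insert y I, ?_, ?_, ?_⟩
    · intro z hz
      rcases Finset.mem_insert.1 hz with rfl | hz
      · exact hy
      · exact hsub (hI1 hz)
    · intro z hz z' hz' hne
      rcases Finset.mem_insert.1 hz with hz1 | hz1
      · rcases Finset.mem_insert.1 hz' with hz2 | hz2
        · exact absurd (hz1.trans hz2.symm) hne
        · rw [hz1]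
          exact (Finset.mem_filter.1 (hI1 hz2)).2
      · rcases Finset.mem_insert.1 hz' with hz2 | hz2
        · rw [hz2]
          exact (Finset.mem_filter.1 (hI1 hz1)).2.symm
        · exact hI2 z hz1 z' hz2 hne
    · rw [Finset.card_insert_of_notMem hyI]
      have h1 : P ⊆ P' ∪ (insert y (P.filter fun y' => ¬ Disjoint (L y) (L y'))) := by
        intro z hz
        by_cases h : z = y
        · subst h
          simp
        · by_cases h' : Disjoint (L y) (L z)
          · apply Finset.mem_union_left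
            rw [hP', Finset.mem_filter, Finset.mem_erase]
            exact ⟨⟨h, hz⟩, h'⟩
          · apply Finset.mem_union_right
            apply Finset.mem_insert_of_mem
            rw [Finset.mem_filter]
            exact ⟨hz, h'⟩
      have h2 := Finset.card_le_card h1
      have h3 := Finset.card_union_le P' (insert y (P.filter fun y' => ¬ Disjoint (L y) (L y')))
      have h4 := Finset.card_insert_le y (P.filter fun y' => ¬ Disjoint (L y) (L y'))
      have h5 := hk y hy
      have h6 : (k + 1) * (I.card + 1) = (k + 1) * I.card + (k + 1) := by ring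
      omega

/-- **Fact 2** -/
theorem fact2 : Fact2Stmt := by
  intro l c
  refine ⟨(l * c + 1) * (10 * 2 ^ (l + 2)), ?_⟩
  intro V _ G h5 J _ X hX hd Y _ a b L hab hl hc hlink S
  set F := (S ×ˢ S).filter fun q => ∃ y, a y = q.1 ∧ b y = q.2 with hF
  have hch : ∀ q : {q // q ∈ F}, ∃ y, a y = q.1.1 ∧ b y = q.1.2 := fun q =>
    (Finset.mem_filter.1 q.2).2
  choose g hg1 hg2 using hch
  have hginj : Function.Injective g := by
    intro q q' h
    apply Subtype.ext
    apply Prod.ext
    · rw [← hg1, ← hg1, h]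
    · rw [← hg2, ← hg2, h]
  set P : Finset Y := univ.image g with hP
  have hPc : P.card = F.card := by
    rw [hP, Finset.card_image_of_injective _ hginj, Finset.card_univ, Fintype.card_coe]
  have hconf : ∀ y ∈ P, (P.filter fun y' => ¬ Disjoint (L y) (L y')).card ≤ l * c := by
    intro y _
    have h1 : (P.filter fun y' => ¬ Disjoint (L y) (L y')) ⊆
        (L y).biUnion fun v => univ.filter fun y' => v ∈ L y' := by
      intro y' hy'
      have h2 := (Finset.mem_filter.1 hy').2
      rw [Finset.not_disjoint_iff] at h2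
      obtain ⟨v, hv, hv'⟩ := h2
      rw [Finset.mem_biUnion]
      exact ⟨v, hv, by simpa using hv'⟩
    refine (Finset.card_le_card h1).trans ?_
    refine (Finset.card_biUnion_le_card_mul _ _ c (fun v _ => hc v)).trans ?_
    exact Nat.mul_le_mul_right _ (hl y)
  obtain ⟨I, hIP, hI, hIc⟩ := exists_ind L (l * c) P.card P rfl hconf
  have hmem : ∀ y ∈ I, ∃ q : {q // q ∈ F}, g q = y := by
    intro y hy
    have := hIP hy
    rw [hP, Finset.mem_image] at this
    obtain ⟨q, -, hq⟩ := this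
    exact ⟨q, hq⟩
  have hfin := fact2_ind h5 X hX hd a b L l hab hl hlink S I ?_ ?_ hI ?_
  · rw [← hPc]
    calc P.card ≤ (l * c + 1) * I.card := hIc
      _ ≤ (l * c + 1) * (10 * 2 ^ (l + 2) * S.card) := Nat.mul_le_mul_left _ hfin
      _ = _ := by ring
  · intro y hy
    obtain ⟨q, rfl⟩ := hmem y hy
    rw [hg1]
    exact (Finset.mem_product.1 (Finset.mem_filter.1 q.2).1).1
  · intro y hy
    obtain ⟨q, rfl⟩ := hmem y hy
    rw [hg2]
    exact (Finset.mem_product.1 (Finset.mem_filter.1 q.2).1).2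
  · intro y hy y' hy' h1 h2
    obtain ⟨q, rfl⟩ := hmem y hy
    obtain ⟨q', rfl⟩ := hmem y' hy'
    rw [hg1, hg1] at h1
    rw [hg2, hg2] at h2
    rw [Subtype.ext (Prod.ext h1 h2)]

end Pool.Agent.H.MP_c8cc4c_co.Hub
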