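import Mathlib
import Pool.Agent.H.MP_c8cc4c_co.Hub.Iface
import Pool.Agent.H.MP_c8cc4c_co.B.Conn
import Pool.Agent.H.MP_c8cc4c_co.F.TriB
import Pool.Agent.H.MP_c8cc4c_co.F.TriC

/-! # MP_c8cc4c_co, full question, part M: no `K_{3,4}` -/

open scoped Classical
open Finset

noncomputable section

namespace Pool.Agent.H.MP_c8cc4c_co.Hub

/-- four different numbers can be sorted -/
theorem sort4 (t : Fin 4 → ℕ) (ht : Function.Injective t) :
    ∃ a b c d : Fin 4, a ≠ b ∧ a ≠ c ∧ a ≠ d ∧ b ≠ c ∧ b ≠ d ∧ c ≠ d ∧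
      t a < t b ∧ t b < t c ∧ t c < t d := by
  have h := Tuple.monotone_sort t
  set s := Tuple.sort t with hs
  have hinj : Function.Injective (t ∘ s) := ht.comp s.injective
  have hlt : ∀ i j : Fin 4, i < j → t (s i) < t (s j) := by
    intro i j hij
    refine lt_of_le_of_ne (h hij.le) ?_
    intro he
    exact absurd (hinj he) hij.ne
  refine ⟨s 0, s 1, s 2, s 3, ?_, ?_, ?_, ?_, ?_, ?_, hlt _ _ (by decide), hlt _ _ (by decide),
    hlt _ _ (by decide)⟩ <;>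
  · intro he
    exact absurd (s.injective he) (by decide)

theorem k34 : K34Stmt := by
  intro M hM hs ht A B C σ hA hAc hB hC hσ hAB hAC hBC hσd hσσ hadj
  obtain ⟨m, g, hm, hper, hinj, hcut, hcons⟩ := contour M hM hs ht A hA hAc
  -- times
  have h1 : ∀ i, ∃ t, t < m ∧ ∃ x ∈ σ i, M.inc (g t) x := by
    intro i
    obtain ⟨⟨x, hx, y, hy, hxy⟩, -, -⟩ := hadj i
    obtain ⟨hne, e, he1, he2⟩ := hxy
    have hxA : x ∉ A := fun h => Set.disjoint_left.1 (hσd i).1 hx h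
    have he : e ∈ M.cut A := by
      unfold PC.cut
      rw [mem_filter]
      exact ⟨mem_univ _, ⟨y, he2, hy⟩, ⟨x, he1, hxA⟩⟩
    obtain ⟨t, ht'⟩ := (hcut e).1 he
    refine ⟨t % m, Nat.mod_lt _ (by omega), x, hx, ?_⟩
    have : g (t % m) = g t := (per_mod hper t).symm
    rw [this, ht']
    exact he1
  choose t ht1 x hx1 hx2 using h1
  have htin : Function.Injective t := by
    intro i j hij
    by_contra hne
    have hx2j := hx2 j
    rw [← hij] at hx2j
    -- the edge g (t i) has an end in A and the ends x i, x j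
    have hc : g (t i) ∈ M.cut A := (hcut _).2 ⟨t i, rfl⟩
    unfold PC.cut at hc
    rw [mem_filter] at hc
    obtain ⟨-, ⟨a, ha, haA⟩, -⟩ := hc
    obtain ⟨p, q, hpq, hpqi⟩ := hM.inc_two (g (t i))
    have e1 := (hpqi _).1 (hx2 i)
    have e2 := (hpqi _).1 hx2j
    have e3 := (hpqi _).1 ha
    have n1 : x i ≠ x j := by
      intro h
      exact Set.disjoint_left.1 (hσσ i j hne) (hx1 i) (h ▸ hx1 j)
    have n2 : a ≠ x i := by
      intro h
      exact Set.disjoint_left.1 (hσd i).1 (hx1 i) (h ▸ haA)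
    have n3 : a ≠ x j := by
      intro h
      exact Set.disjoint_left.1 (hσd j).1 (hx1 j) (h ▸ haA)
    rcases e1 with e1 | e1 <;> rcases e2 with e2 | e2 <;> rcases e3 with e3 | e3
    · exact n1 (e1.trans e2.symm)
    · exact n1 (e1.trans e2.symm)
    · exact n2 (e3.trans e1.symm)
    · exact n3 (e3.trans e2.symm)
    · exact n3 (e3.trans e2.symm)
    · exact n2 (e3.trans e1.symm)
    · exact n1 (e1.trans e2.symm)
    · exact n1 (e1.trans e2.symm)
  obtain ⟨a, b, c, d, hab, hac, had, hbc, hbd, hcd, l1, l2, l3⟩ := sort4 t htin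
  -- the two connected sets
  have hconn : ∀ (i j : Fin 4) (X : Set M.V), ConnOn M.graph X →
      (∃ x ∈ σ i, ∃ y ∈ X, M.graph.Adj x y) → (∃ x ∈ σ j, ∃ y ∈ X, M.graph.Adj x y) →
      ConnOn M.graph (σ i ∪ X ∪ σ j) := by
    intro i j X hX h2 h3
    have h4 : ConnOn M.graph (σ i ∪ X) := connOn_union_adj (hσ i) hX h2
    refine connOn_union_adj h4 (hσ j) ?_
    obtain ⟨x, hx, y, hy, hxy⟩ := h3
    exact ⟨y, Or.inr hy, x, hx, hxy.symm⟩
  have hP : ConnOn M.graph (σ a ∪ C ∪ σ c) := hconn a c C hC (hadj a).2.2 (hadj c).2.2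
  have hP' : ConnOn M.graph (σ b ∪ B ∪ σ d) := hconn b d B hB (hadj b).2.1 (hadj d).2.1
  have hsub : ∀ (i j : Fin 4) (X : Set M.V), Disjoint A X → σ i ∪ X ∪ σ j ⊆ Aᶜ := by
    rintro i j X hX v ((hv | hv) | hv) hvA
    · exact Set.disjoint_left.1 (hσd i).1 hv hvA
    · exact Set.disjoint_left.1 hX hvA hv
    · exact Set.disjoint_left.1 (hσd j).1 hv hvA
  obtain ⟨v, hv, hv'⟩ := alt M hM hs ht A hA hAc m g hm hper hinj hcut hcons (t a) (t b) (t c) (t d)
    l1 l2 l3 (ht1 d) Aᶜ (Or.inr rfl) (σ a ∪ C ∪ σ c) (σ b ∪ B ∪ σ d) (hsub a c C hAC)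
    (hsub b d B hAB) hP hP' ⟨x a, Or.inl (Or.inl (hx1 a)), hx2 a⟩ ⟨x c, Or.inr (hx1 c), hx2 c⟩
    ⟨x b, Or.inl (Or.inl (hx1 b)), hx2 b⟩ ⟨x d, Or.inr (hx1 d), hx2 d⟩
  have key : ∀ i j : Fin 4, i ≠ j → v ∈ σ i → v ∉ σ j := fun i j hij h1 h2 =>
    Set.disjoint_left.1 (hσσ i j hij) h1 h2
  rcases hv with (hv | hv) | hv <;> rcases hv' with (hv' | hv') | hv'
  · exact key a b hab hv hv'
  · exact Set.disjoint_left.1 (hσd a).2.1 hv hv'
  · exact key a d had hv hv'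
  · exact Set.disjoint_left.1 (hσd b).2.2 hv' hv
  · exact Set.disjoint_left.1 hBC hv' hv
  · exact Set.disjoint_left.1 (hσd d).2.2 hv' hv
  · exact key b c hbc hv' hv
  · exact Set.disjoint_left.1 (hσd c).2.1 hv hv'
  · exact key c d hcd hv hv'

end Pool.Agent.H.MP_c8cc4c_co.Hub
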