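import Mathlib
import Pool.Agent.H.MP_c8cc4c_co.Hub.Iface
import Pool.Agent.H.MP_c8cc4c_co.B.Near
import Pool.Agent.H.MP_c8cc4c_co.B.Conn
import Pool.Agent.H.MP_c8cc4c_co.E.E5

/-! # MP_c8cc4c_co, full question, part M: one of the sets has at most five neighbours -/

open scoped Classical
open Finset

noncomputable section

namespace Pool.Agent.H.MP_c8cc4c_co.Hub

/-- Disjoint connected sets can be extended to a partition into connected classes. -/
theorem extend {V : Type} [Fintype V] (G : SimpleGraph V) (hG : ∀ x y, ∃ n, Near G Set.univ n x y)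
    {ι : Type} [Nonempty ι] : ∀ (n : ℕ) (X : ι → Set V),
    (univ.filter fun v => ∀ i, v ∉ X i).card ≤ n → (∀ i, ConnOn G (X i)) →
    (∀ i j, i ≠ j → Disjoint (X i) (X j)) →
    ∃ cls : V → ι, ∀ i, X i ⊆ {v | cls v = i} ∧ ConnOn G {v | cls v = i} := by
  intro n
  induction n with
  | zero =>
    intro X hn hX hd
    have h1 : ∀ v, ∃ i, v ∈ X i := by
      intro v
      by_contra hv
      push Not at hv
      have : v ∈ (univ.filter fun v => ∀ i, v ∉ X i) := by
        rw [mem_filter]
        exact ⟨mem_univ _, hv⟩
      rw [Finset.card_eq_zero.1 (Nat.le_zero.1 hn)] at this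
      simp at this
    choose cls hcls using h1
    have h2 : ∀ i, X i = {v | cls v = i} := by
      intro i
      ext v
      constructor
      · intro hv
        by_contra hne
        exact Set.disjoint_left.1 (hd _ _ hne) (hcls v) hv
      · intro hv
        have hv' : cls v = i := hv
        rw [← hv']
        exact hcls v
    exact ⟨cls, fun i => ⟨(h2 i).le, h2 i ▸ hX i⟩⟩
  | succ n ih =>
    intro X hn hX hd
    by_cases hall : ∀ v, ∃ i, v ∈ X i
    · refine ih X ?_ hX hd
      have : (univ.filter fun v => ∀ i, v ∉ X i) = ∅ := by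
        rw [filter_eq_empty_iff]
        intro v _ hv
        obtain ⟨i, hi⟩ := hall v
        exact hv i hi
      rw [this]
      simp
    · push Not at hall
      obtain ⟨v0, hv0⟩ := hall
      obtain ⟨i0⟩ := (inferInstance : Nonempty ι)
      obtain ⟨x0, hx0⟩ := (hX i0).1
      -- a vertex outside adjacent to a vertex inside
      have h1 : ∃ u v, (∃ i, u ∈ X i) ∧ (∀ i, v ∉ X i) ∧ G.Adj u v := by
        obtain ⟨k, hk⟩ := hG x0 v0
        by_contra hno
        push Not at hno
        have h2 : ∃ i, v0 ∈ X i := near_induct (P := fun v => ∃ i, v ∈ X i)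
          (fun u v _ _ huv hu => by
            by_contra hv
            push Not at hv
            obtain ⟨i, hi⟩ := hu
            exact hno u v ⟨i, hi⟩ hv huv) hk ⟨i0, hx0⟩
        obtain ⟨i, hi⟩ := h2
        exact hv0 i hi
      obtain ⟨u, v, ⟨i, hui⟩, hv, huv⟩ := h1
      let X' : ι → Set V := fun j => if j = i then insert v (X i) else X j
      have hX'i : X' i = insert v (X i) := if_pos rfl
      have hX'j : ∀ j, j ≠ i → X' j = X j := fun j hj => if_neg hj
      have hsub : ∀ j, X j ⊆ X' j := by
        intro j
        by_cases hj : j = i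
        · rw [hj, hX'i]
          exact Set.subset_insert _ _
        · exact (hX'j j hj).ge
      have hcard : (univ.filter fun w => ∀ j, w ∉ X' j).card ≤ n := by
        -- the number of uncovered vertices drops
        have h3 : (univ.filter fun w => ∀ j, w ∉ X' j) ⊂ (univ.filter fun w => ∀ j, w ∉ X j) := by
          rw [Finset.ssubset_iff_of_subset]
          · refine ⟨v, ?_, ?_⟩
            · rw [mem_filter]
              exact ⟨mem_univ _, hv⟩
            · rw [mem_filter]
              rintro ⟨-, h⟩
              exact h i (hX'i ▸ Set.mem_insert _ _)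
          · intro w hw
            rw [mem_filter] at hw ⊢
            exact ⟨mem_univ _, fun j hj => hw.2 j (hsub j hj)⟩
        have h4 := Finset.card_lt_card h3
        omega
      have hconn : ∀ j, ConnOn G (X' j) := by
        intro j
        by_cases hj : j = i
        · rw [hj, hX'i]
          have h5 := connOn_union_adj (hX i) (connOn_singleton v (G := G)) ⟨u, hui, v, rfl, huv⟩
          rwa [Set.union_singleton] at h5
        · rw [hX'j j hj]
          exact hX j
      have hdisj : ∀ j k, j ≠ k → Disjoint (X' j) (X' k) := by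
        intro j k hjk
        by_cases hj : j = i
        · have hk : k ≠ i := fun hk => hjk (hj.trans hk.symm)
          rw [hj, hX'i, hX'j k hk, Set.disjoint_left]
          rintro w (rfl | hw) hwk
          · exact hv k hwk
          · exact Set.disjoint_left.1 (hd _ _ (Ne.symm hk)) hw hwk
        · by_cases hk : k = i
          · rw [hk, hX'i, hX'j j hj, Set.disjoint_left]
            rintro w hwj (rfl | hw)
            · exact hv j hwj
            · exact Set.disjoint_left.1 (hd _ _ hj) hwj hw
          · rw [hX'j j hj, hX'j k hk]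
            exact hd j k hjk
      obtain ⟨cls, hcls⟩ := ih X' hcard hconn hdisj
      exact ⟨cls, fun j => ⟨(hsub j).trans (hcls j).1, (hcls j).2⟩⟩

theorem card_filter_le_of_imp {ι : Type} [Fintype ι] {P Q : ι → Prop} {i1 : DecidablePred P}
    {i2 : DecidablePred Q} (h : ∀ j, P j → Q j) :
    (@Finset.filter ι P i1 univ).card ≤ (@Finset.filter ι Q i2 univ).card := by
  refine Finset.card_le_card ?_
  intro j hj
  rw [mem_filter] at hj ⊢
  exact ⟨mem_univ _, h j hj.2⟩

theorem m5 : M5Stmt := by
  intro M hM ι _ X hne hX hd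
  have hne' := hne
  obtain ⟨i0⟩ := hne'
  rcases Nat.lt_or_ge (Fintype.card ι) 2 with hc | hc
  · refine ⟨i0, ?_⟩
    refine le_trans (card_filter_le_of_imp (i2 := fun _ => Classical.propDecidable _)
      (Q := fun _ => False) ?_) (by simp)
    rintro j ⟨hj, -⟩
    have h2 : Fintype.card ι ≤ 1 := by omega
    exact hj (Fintype.card_le_one_iff.1 h2 j i0)
  · obtain ⟨cls, hcls⟩ := extend M.graph hM.conn _ X le_rfl hX hd
    obtain ⟨P, -, hP⟩ := e5 M hM ι cls (fun i => (hcls i).2) i0 hc
    refine ⟨P, le_trans (card_filter_le_of_imp ?_) hP⟩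
    rintro j ⟨hjP, x, hx, y, hy, hxy⟩
    exact ⟨hjP, x, y, hxy, (hcls P).1 hx, (hcls j).1 hy⟩

end Pool.Agent.H.MP_c8cc4c_co.Hub
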